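import Mathlib
import Pool.Agent.V11146.MobTwins
import Pool.Agent.V11146.MobTuran
import Pool.Agent.V11146.MobExt

set_option autoImplicit false

namespace Pool.Agent.Results.MP_490342_co.TuranMobTwo

open SimpleGraph Finset Pool.Agent.V11146.Mob

variable {V : Type} [Fintype V] [DecidableEq V] {G : SimpleGraph V}

omit [Fintype V] [DecidableEq V] in
lemma gp_triangle {a b c : V} (hab : G.Adj a b) (hac : G.Adj a c) (hbc : G.Adj b c) :
    GP3 G a b c := by
  have h1 := dist_eq_one_iff_adj.mpr hab
  have h2 := dist_eq_one_iff_adj.mpr hac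
  have h3 := dist_eq_one_iff_adj.mpr hbc
  refine ⟨hab.ne, hac.ne, hbc.ne, ?_, ?_, ?_⟩ <;> omega

/-- if no triangle reaches everything then `PP` holds. -/
lemma pp_of_no_mobile (hc : G.Connected) (hno : ∀ S : Finset V, IsMobile G S → S.card ≠ 3) :
    PP G := by
  have hnr : ∀ a b c : V, G.Adj a b → G.Adj a c → G.Adj b c →
      ¬ ∀ w, Reached G a b c w := by
    intro a b c hab hac hbc h
    apply hno {a, b, c} (isMobile_of_reached (gp_triangle hab hac hbc) h)
    rw [card_eq_three]
    exact ⟨a, b, c, hab.ne, hac.ne, hbc.ne, rfl⟩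
  have h5 : ∀ a b c d e : V, G.Adj a b → G.Adj a c → G.Adj a d → G.Adj a e → G.Adj b c →
      G.Adj b d → G.Adj b e → G.Adj c d → G.Adj c e → G.Adj d e → False := by
    intro a b c d e h1 h2 h3 h4 h5 h6 h7 h8 h9 h10
    apply hnr a b c h1 h2 h5
    have hK : ∀ p ∈ ({a, b, c, d, e} : Finset V), ∀ q ∈ ({a, b, c, d, e} : Finset V), p ≠ q →
        G.Adj p q := by
      intro p hp q hq hpq
      simp only [mem_insert, mem_singleton] at hp hq
      rcases hp with rfl | rfl | rfl | rfl | rfl <;> rcases hq with rfl | rfl | rfl | rfl | rfl <;>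
        first
        | exact absurd rfl hpq
        | assumption
        | (apply SimpleGraph.Adj.symm; assumption)
    have hcl := clique_reach {a, b, c, d, e} hK (by simp) (by simp) (by simp) h1.ne h2.ne h5.ne
      (RC.base : RC G a b c a b c)
    have hcard : ({a, b, c, d, e} : Finset V).card = 5 := by
      rw [card_insert_of_notMem, card_insert_of_notMem, card_insert_of_notMem,
        card_insert_of_notMem, card_singleton]
      · simp only [mem_singleton]; exact h10.ne
      · simp only [mem_insert, mem_singleton, not_or]; exact ⟨h8.ne, h9.ne⟩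
      · simp only [mem_insert, mem_singleton, not_or]; exact ⟨h5.ne, h6.ne, h7.ne⟩
      · simp only [mem_insert, mem_singleton, not_or]; exact ⟨h1.ne, h2.ne, h3.ne, h4.ne⟩
    intro w
    exact reach_K5 hc {a, b, c, d, e} hK hcard hcl w
  refine ⟨h5, ?_⟩
  intro a b c d a' d' hab hac had hbc hbd hcd a'b a'c a'd na' d'a d'b d'c nd'
  apply hnr a b c hab hac hbc
  intro w
  exact reach_twins hc hab hac had hbc hbd hcd a'b a'c a'd
    (fun h => h5 a' a b c d h a'b a'c a'd hab hac had hbc hbd hcd) na' d'a d'b d'c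
    (fun h => h5 d' a b c d d'a d'b d'c h hab hac had hbc hbd hcd) nd' RC.base w

/-- a connected graph containing `K_4` with no mobile set of size three has few edges. -/
lemma few_edges (hc : G.Connected) (hno : ∀ S : Finset V, IsMobile G S → S.card ≠ 3)
    (hK4 : ¬ G.CliqueFree 4) :
    3 * ord G + 2 < 2 * (Fintype.card V) ^ 2 := by
  classical
  have hPP := pp_of_no_mobile hc hno
  set n := Fintype.card V with hn
  have hnr : ∀ a b c : V, G.Adj a b → G.Adj a c → G.Adj b c →
      ∃ w, ¬ Reached G a b c w := by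
    intro a b c hab hac hbc
    by_contra h
    push Not at h
    apply hno {a, b, c} (isMobile_of_reached (gp_triangle hab hac hbc) h)
    rw [card_eq_three]
    exact ⟨a, b, c, hab.ne, hac.ne, hbc.ne, rfl⟩
  by_cases htw : ∃ a b c d a' : V, G.Adj a b ∧ G.Adj a c ∧ G.Adj a d ∧ G.Adj b c ∧
      G.Adj b d ∧ G.Adj c d ∧ G.Adj a' b ∧ G.Adj a' c ∧ G.Adj a' d ∧ a' ≠ a
  · obtain ⟨a, b, c, d, a', hab, hac, had, hbc, hbd, hcd, a'b, a'c, a'd, na'⟩ := htw
    obtain ⟨w, hw⟩ := hnr a b c hab hac hbc
    have base : RC G a b c a b c := RC.base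
    have gp : ∀ {x y z : V}, G.Adj x y → G.Adj x z → G.Adj y z → GP3 G x y z :=
      fun h1 h2 h3 => gp_triangle h1 h2 h3
    -- w has no neighbour in Z
    have hwa : ¬ G.Adj w a := fun h => hw (reach_level1 hab hac had hbc hbd hcd base w h.symm)
    have hwb : ¬ G.Adj w b := fun h => hw (reach_level1 hab.symm hbc hbd hac had hcd base.swap w
      h.symm)
    have hwc : ¬ G.Adj w c := fun h => hw (reach_level1 hac.symm hbc.symm hcd hab had hbd
      base.rot.rot w h.symm)
    have rd : RC G a b c d b c := base.move had (gp hbd.symm hcd.symm hbc)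
    have hwd : ¬ G.Adj w d := fun h => hw (reach_level1 hbd.symm hcd.symm had.symm hbc hab.symm
      hac.symm rd w h.symm)
    have ra' : RC G a b c a' b c := rd.move a'd.symm (gp a'b a'c hbc)
    have hwa' : ¬ G.Adj w a' := fun h => hw (reach_level1 a'b a'c a'd hbc hbd hcd ra' w h.symm)
    have hwZ : w ∉ ({a, a', b, c, d} : Finset V) := by
      simp only [mem_insert, mem_singleton, not_or]
      refine ⟨?_, ?_, ?_, ?_, ?_⟩
      · rintro rfl; exact hwb hab
      · rintro rfl; exact hwb a'b
      · rintro rfl; exact hwa hab.symm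
      · rintro rfl; exact hwa hac.symm
      · rintro rfl; exact hwa had.symm
    set Z : Finset V := {a, a', b, c, d} with hZ
    have hZc : Z.card = 5 := by
      rw [hZ, card_insert_of_notMem, card_insert_of_notMem, card_insert_of_notMem,
        card_insert_of_notMem, card_singleton]
      · simp only [mem_singleton]; exact hcd.ne
      · simp only [mem_insert, mem_singleton, not_or]; exact ⟨hbc.ne, hbd.ne⟩
      · simp only [mem_insert, mem_singleton, not_or]; exact ⟨a'b.ne, a'c.ne, a'd.ne⟩
      · simp only [mem_insert, mem_singleton, not_or]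
        exact ⟨na'.symm, hab.ne, hac.ne, had.ne⟩
    have hn6 : 6 ≤ n := by
      have h1 := card_le_univ (insert w Z)
      rw [card_insert_of_notMem hwZ, hZc] at h1
      exact h1
    have h1 := ord_split G Z
    have h2 := inner_five hPP hab hac had hbc hbd hcd a'b a'c a'd na'
    rw [← hZ] at h2
    have hd0 : dZ G Z w = 0 := by
      unfold dZ
      apply sum_eq_zero
      intro z hz
      rw [if_neg]
      simp only [hZ, mem_insert, mem_singleton] at hz
      rcases hz with rfl | rfl | rfl | rfl | rfl <;> assumption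
    have h3 : ∑ y ∈ univ \ Z, dZ G Z y ≤ 3 * (n - 6) := by
      have hwm : w ∈ univ \ Z := mem_sdiff.mpr ⟨mem_univ _, hwZ⟩
      rw [← add_sum_erase _ _ hwm, hd0, zero_add]
      calc ∑ y ∈ (univ \ Z).erase w, dZ G Z y ≤ ∑ y ∈ (univ \ Z).erase w, 3 := by
            apply sum_le_sum
            intro y hy
            rw [mem_erase, mem_sdiff] at hy
            exact dZ_five hPP hab hac had hbc hbd hcd a'b a'c a'd na' hy.2.2
        _ = 3 * (n - 6) := by
            rw [sum_const, card_erase_of_mem hwm, card_sdiff_of_subset (subset_univ _),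
              card_univ, ← hn, hZc, smul_eq_mul, mul_comm]
            congr 1
    have h4 := phi (n - 5) {x // x ∉ Z}
      (G.comap (Subtype.val : {x // x ∉ Z} → V)) (by rw [V11146.Mob.card_compl, ← hn, hZc])
      (hPP.comap _ Subtype.val_injective)
    set e := ord (G.comap (Subtype.val : {x // x ∉ Z} → V)) with he
    obtain ⟨q, hq⟩ : ∃ q, n = q + 6 := ⟨n - 6, by omega⟩
    have e5 : n - 5 = q + 1 := by omega
    have e6 : n - 6 = q := by omega
    rw [e5] at h4
    rw [e6] at h3
    rw [h1, h2, hq]
    have h5 := h4.1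
    nlinarith
  · push Not at htw
    obtain ⟨a, b, c, d, hab, hac, had, hbc, hbd, hcd⟩ := k4_of_not_cliqueFree hK4
    have hno' : ∀ a b c d a' : V, G.Adj a b → G.Adj a c → G.Adj a d → G.Adj b c → G.Adj b d →
        G.Adj c d → G.Adj a' b → G.Adj a' c → G.Adj a' d → a' ≠ a → False := by
      intro a b c d a' h1 h2 h3 h4 h5 h6 h7 h8 h9 h10
      exact h10 (htw a b c d a' h1 h2 h3 h4 h5 h6 h7 h8 h9)
    obtain ⟨w, hw⟩ := hnr a b c hab hac hbc
    have base : RC G a b c a b c := RC.base
    have gp : ∀ {x y z : V}, G.Adj x y → G.Adj x z → G.Adj y z → GP3 G x y z :=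
      fun h1 h2 h3 => gp_triangle h1 h2 h3
    have hwa : ¬ G.Adj w a := fun h => hw (reach_level1 hab hac had hbc hbd hcd base w h.symm)
    have hwb : ¬ G.Adj w b := fun h => hw (reach_level1 hab.symm hbc hbd hac had hcd base.swap w
      h.symm)
    have hwc : ¬ G.Adj w c := fun h => hw (reach_level1 hac.symm hbc.symm hcd hab had hbd
      base.rot.rot w h.symm)
    have rd : RC G a b c d b c := base.move had (gp hbd.symm hcd.symm hbc)
    have hwd : ¬ G.Adj w d := fun h => hw (reach_level1 hbd.symm hcd.symm had.symm hbc hab.symm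
      hac.symm rd w h.symm)
    have hwZ : w ∉ ({a, b, c, d} : Finset V) := by
      simp only [mem_insert, mem_singleton, not_or]
      refine ⟨?_, ?_, ?_, ?_⟩
      · rintro rfl; exact hwb hab
      · rintro rfl; exact hwa hab.symm
      · rintro rfl; exact hwa hac.symm
      · rintro rfl; exact hwa had.symm
    set Z : Finset V := {a, b, c, d} with hZ
    have hZc : Z.card = 4 := by
      rw [hZ, card_insert_of_notMem, card_insert_of_notMem,
        card_insert_of_notMem, card_singleton]
      · simp only [mem_singleton]; exact hcd.ne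
      · simp only [mem_insert, mem_singleton, not_or]; exact ⟨hbc.ne, hbd.ne⟩
      · simp only [mem_insert, mem_singleton, not_or]
        exact ⟨hab.ne, hac.ne, had.ne⟩
    have hn5 : 5 ≤ n := by
      have h1 := card_le_univ (insert w Z)
      rw [card_insert_of_notMem hwZ, hZc] at h1
      exact h1
    have h1 := ord_split G Z
    have h2 := inner_four hab hac had hbc hbd hcd
    rw [← hZ] at h2
    have hd0 : dZ G Z w = 0 := by
      unfold dZ
      apply sum_eq_zero
      intro z hz
      rw [if_neg]
      simp only [hZ, mem_insert, mem_singleton] at hz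
      rcases hz with rfl | rfl | rfl | rfl <;> assumption
    have h3 : ∑ y ∈ univ \ Z, dZ G Z y ≤ 2 * (n - 5) := by
      have hwm : w ∈ univ \ Z := mem_sdiff.mpr ⟨mem_univ _, hwZ⟩
      rw [← add_sum_erase _ _ hwm, hd0, zero_add]
      calc ∑ y ∈ (univ \ Z).erase w, dZ G Z y ≤ ∑ y ∈ (univ \ Z).erase w, 2 := by
            apply sum_le_sum
            intro y hy
            rw [mem_erase, mem_sdiff] at hy
            exact dZ_four hab hac had hbc hbd hcd hno' hy.2.2
        _ = 2 * (n - 5) := by
            rw [sum_const, card_erase_of_mem hwm, card_sdiff_of_subset (subset_univ _),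
              card_univ, ← hn, hZc, smul_eq_mul, mul_comm]
            congr 1
    have h4 := phi (n - 4) {x // x ∉ Z}
      (G.comap (Subtype.val : {x // x ∉ Z} → V)) (by rw [V11146.Mob.card_compl, ← hn, hZc])
      (hPP.comap _ Subtype.val_injective)
    set e := ord (G.comap (Subtype.val : {x // x ∉ Z} → V)) with he
    obtain ⟨q, hq⟩ : ∃ q, n = q + 5 := ⟨n - 5, by omega⟩
    have e5 : n - 4 = q + 1 := by omega
    have e6 : n - 5 = q := by omega
    rw [e5] at h4
    rw [e6] at h3
    rw [h1, h2, hq]
    have h5 := h4.1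
    nlinarith

lemma turan_edges (n : ℕ) : n ^ 2 ≤ 3 * (turanGraph n 3).edgeFinset.card + 1 := by
  rw [card_edgeFinset_turanGraph]
  obtain ⟨q, r, hr, rfl⟩ : ∃ q r, r < 3 ∧ n = 3 * q + r := ⟨n / 3, n % 3, by omega, by omega⟩
  have h1 : (3 * q + r) % 3 = r := by omega
  rw [h1]
  interval_cases r
  · have e : ((3 * q + 0) ^ 2 - 0 ^ 2) * (3 - 1) / (2 * 3) = 3 * q ^ 2 := by
      have : ((3 * q + 0) ^ 2 - 0 ^ 2) * (3 - 1) = 3 * q ^ 2 * (2 * 3) := by
        simp; ring
      rw [this]
      exact Nat.mul_div_cancel _ (by norm_num)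
    rw [e]
    simp
    nlinarith
  · have e : ((3 * q + 1) ^ 2 - 1 ^ 2) * (3 - 1) / (2 * 3) = 3 * q ^ 2 + 2 * q := by
      have h2 : (3 * q + 1) ^ 2 - 1 ^ 2 = 9 * q ^ 2 + 6 * q := by
        have : (3 * q + 1) ^ 2 = (9 * q ^ 2 + 6 * q) + 1 ^ 2 := by ring
        rw [this, Nat.add_sub_cancel]
      rw [h2]
      have : (9 * q ^ 2 + 6 * q) * (3 - 1) = (3 * q ^ 2 + 2 * q) * (2 * 3) := by
        ring
      rw [this]
      exact Nat.mul_div_cancel _ (by norm_num)
    rw [e]
    simp
    nlinarith
  · have e : ((3 * q + 2) ^ 2 - 2 ^ 2) * (3 - 1) / (2 * 3) = 3 * q ^ 2 + 4 * q := by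
      have h2 : (3 * q + 2) ^ 2 - 2 ^ 2 = 9 * q ^ 2 + 12 * q := by
        have : (3 * q + 2) ^ 2 = (9 * q ^ 2 + 12 * q) + 2 ^ 2 := by ring
        rw [this, Nat.add_sub_cancel]
      rw [h2]
      have : (9 * q ^ 2 + 12 * q) * (3 - 1) = (3 * q ^ 2 + 4 * q) * (2 * 3) := by
        ring
      rw [this]
      exact Nat.mul_div_cancel _ (by norm_num)
    rw [e]
    simp
    nlinarith

/-- For every `n ≥ 4`, `mob(T(n,3)) = 2`, and every graph `G` of order `n` with `mob(G) = 2` has
at most as many edges as `T(n,3)`, with equality only if `G` is isomorphic to `T(n,3)`. -/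
theorem result : ∀ n : ℕ, 4 ≤ n →
    mob (turanGraph n 3) = 2 ∧
    ∀ G : SimpleGraph (Fin n), mob G = 2 →
      G.edgeSet.ncard ≤ (turanGraph n 3).edgeSet.ncard ∧
      (G.edgeSet.ncard = (turanGraph n 3).edgeSet.ncard → Nonempty (G ≃g turanGraph n 3)) := by
  classical
  intro n hn
  refine ⟨mob_turan hn, ?_⟩
  intro G hG
  have e1 : G.edgeSet.ncard = G.edgeFinset.card := by
    rw [← Set.ncard_coe_finset]; simp
  have e2 : (turanGraph n 3).edgeSet.ncard = (turanGraph n 3).edgeFinset.card := by
    rw [← Set.ncard_coe_finset]; simp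
  rw [e1, e2]
  have hno : ∀ S : Finset (Fin n), IsMobile G S → S.card ≤ 2 := by
    intro S hS
    rw [← hG]
    exact le_mob hS
  have hc : G.Connected := by
    by_contra hcon
    obtain ⟨S, hS, h3⟩ := disconnected hcon (by rw [Fintype.card_fin]; omega)
    have := hno S hS
    omega
  have hcf : G.CliqueFree 4 ∨ 3 * G.edgeFinset.card + 1 < n ^ 2 := by
    by_cases h : G.CliqueFree 4
    · exact Or.inl h
    · right
      have h1 := few_edges hc (fun S hS h3 => by have := hno S hS; omega) h
      rw [ord_edges, Fintype.card_fin] at h1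
      omega
  have ht := turan_edges n
  rcases hcf with h | h
  · have hmax := isTuranMaximal_turanGraph (n := n) (r := 3) (by norm_num)
    have hle : G.edgeFinset.card ≤ (turanGraph n 3).edgeFinset.card := by
      have := hmax.2 (G' := G) h
      exact this
    refine ⟨hle, ?_⟩
    intro heq
    have hG' : G.IsTuranMaximal 3 := by
      refine ⟨h, ?_⟩
      intro H _ hH
      have := hmax.2 (G' := H) hH
      rw [heq]
      convert this using 1
    have := (isTuranMaximal_iff_nonempty_iso_turanGraph (by norm_num)).mp hG'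
    rwa [Fintype.card_fin] at this
  · constructor
    · omega
    · intro heq; omega

end Pool.Agent.Results.MP_490342_co.TuranMobTwo
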